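import Pool.Agent.Helper36.RS.Goals

/-! # Packet POL (MP_c98eff_gt): polynomials on the sphere -/

set_option autoImplicit false

namespace Pool.Agent.Helper67.RS

open Set Filter Topology MeasureTheory Pool.Agent.Helper47.RF Pool.Agent.Helper36.RS
open scoped ContDiff

/-- coordinates -/
noncomputable def co (j : Fin 4) : HH →L[ℝ] ℝ where
  toFun x := ![x.re, x.imI, x.imJ, x.imK] j
  map_add' x y := by fin_cases j <;> simp
  map_smul' c x := by fin_cases j <;> simp
  cont := by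
    fin_cases j
    · exact Quaternion.continuous_re
    · exact Quaternion.continuous_imI
    · exact Quaternion.continuous_imJ
    · exact Quaternion.continuous_imK

theorem co_apply (j : Fin 4) (x : HH) : co j x = ![x.re, x.imI, x.imJ, x.imK] j := rfl

theorem co_ext {x y : HH} (h : ∀ j, co j x = co j y) : x = y := by
  have h0 := h 0
  have h1 := h 1
  have h2 := h 2
  have h3 := h 3
  simp only [co_apply] at h0 h1 h2 h3
  exact QuaternionAlgebra.ext h0 h1 h2 h3

theorem sum_co (x : HH) : ∑ j, co j x ^ 2 = ‖x‖ ^ 2 := by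
  have h := Quaternion.normSq_eq_norm_mul_self x
  rw [Quaternion.normSq_def'] at h
  simp only [co_apply, Fin.sum_univ_four]
  simp
  linarith

theorem co_mul (i : Fin 3) (x : HH) : (fun j => co j (x * qe i)) =
    ![![-co 1 x, co 0 x, co 3 x, -co 2 x], ![-co 2 x, -co 3 x, co 0 x, co 1 x],
      ![-co 3 x, co 2 x, -co 1 x, co 0 x]] i := by
  funext j
  fin_cases i <;> fin_cases j <;> simp [co_apply, qe]

/-- normalised coordinates -/
noncomputable def X (j : Fin 4) : XS := ⟨fun x => co j x * ‖x‖⁻¹, by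
  constructor
  · intro x hx
    have hx0 : x ≠ 0 := hx
    refine ContDiffAt.contDiffWithinAt ?_
    exact (co j).contDiff.contDiffAt.mul
      ((contDiffAt_id.norm ℝ hx0).inv (norm_ne_zero_iff.2 hx0))
  · intro r x hr
    show co j (r • x) * ‖r • x‖⁻¹ = co j x * ‖x‖⁻¹
    rw [map_smul, norm_smul, Real.norm_eq_abs, abs_of_pos hr, smul_eq_mul]
    field_simp⟩

theorem X_val (j : Fin 4) (x : HH) : (X j).1 x = co j x * ‖x‖⁻¹ := rfl

theorem inner_qe (i : Fin 3) (x : HH) : inner ℝ x (x * qe i) = 0 := by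
  rw [Quaternion.inner_def]
  fin_cases i <;> simp [qe] <;> ring

theorem E_X (i : Fin 3) (j : Fin 4) (x : HH) :
    (Ed i (X j)).1 x = co j (x * qe i) * ‖x‖⁻¹ := by
  rw [Ed_apply]
  rcases eq_or_ne x 0 with rfl | hx
  · simp [E]
  have hn : DifferentiableAt ℝ (fun y : HH => ‖y‖) x := differentiableAt_id.norm ℝ hx
  have hx0 : ‖x‖ ≠ 0 := norm_ne_zero_iff.2 hx
  have h0 : fderiv ℝ (fun y : HH => ‖y‖) x (x * qe i) = 0 := by
    have h1 : HasFDerivAt (fun y : HH => ‖y‖ ^ 2) (2 • innerSL ℝ x) x :=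
      (hasStrictFDerivAt_norm_sq x).hasFDerivAt
    have h2 := (hn.hasFDerivAt.pow 2).unique h1
    have h3 := congrArg (fun L : HH →L[ℝ] ℝ => L (x * qe i)) h2
    simp [inner_qe] at h3
    rcases h3 with h3 | h3
    · exact absurd h3 hx
    · exact h3
  have h4 : HasFDerivAt (fun y : HH => ‖y‖⁻¹)
      ((-(‖x‖ ^ 2)⁻¹ : ℝ) • fderiv ℝ (fun y : HH => ‖y‖) x) x :=
    (hasDerivAt_inv hx0).comp_hasFDerivAt x hn.hasFDerivAt
  have h5 : HasFDerivAt (fun y : HH => co j y * ‖y‖⁻¹) _ x := (co j).hasFDerivAt.mul h4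
  have h6 : E i (X j).1 x = fderiv ℝ (fun y : HH => co j y * ‖y‖⁻¹) x (x * qe i) := rfl
  rw [h6, h5.fderiv]
  simp [h0]
  ring

theorem Ed_X (i : Fin 3) : (fun j => Ed i (X j)) =
    ![![-X 1, X 0, X 3, -X 2], ![-X 2, -X 3, X 0, X 1], ![-X 3, X 2, -X 1, X 0]] i := by
  have key : ∀ (x : HH) (j : Fin 4), (Ed i (X j)).1 x = (fun j => co j (x * qe i)) j * ‖x‖⁻¹ :=
    fun x j => E_X i j x
  funext j
  apply Subtype.ext
  funext x
  rw [key x j, co_mul]
  have hneg : ∀ k : Fin 4, (-X k : XS).1 x = - (co k x * ‖x‖⁻¹) := fun _ => rfl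
  fin_cases i <;> fin_cases j <;> simp [hneg, X_val]

/-- equality away from the quaternion zero -/
def NN : Submodule ℝ XS where
  carrier := {f | ∀ x ≠ 0, f.1 x = 0}
  zero_mem' := fun _ _ => rfl
  add_mem' := fun {f g} hf hg x hx => by
    show f.1 x + g.1 x = 0
    rw [hf x hx, hg x hx, add_zero]
  smul_mem' := fun c f hf x hx => by
    show c * f.1 x = 0
    rw [hf x hx, mul_zero]

theorem mul_NN {f g : XS} (hg : g ∈ NN) : f * g ∈ NN := fun x hx => by
  show f.1 x * g.1 x = 0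
  rw [hg x hx, mul_zero]

/-- polynomials of degree at most `n` -/
noncomputable def VV : ℕ → Submodule ℝ XS
  | 0 => Submodule.span ℝ {1}
  | n + 1 => VV n ⊔ ⨆ j : Fin 4, (VV n).map (LinearMap.mulLeft ℝ (X j))

theorem VV_fin (n : ℕ) : FiniteDimensional ℝ (VV n) := by
  induction n with
  | zero =>
    rw [VV]
    infer_instance
  | succ n ih =>
    rw [VV]
    infer_instance

theorem VV_le (n : ℕ) : VV n ≤ VV (n + 1) := by
  rw [VV]
  exact le_sup_left

theorem VV_mono {n m : ℕ} (h : n ≤ m) : VV n ≤ VV m := by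
  induction h with
  | refl => exact le_rfl
  | step _ ih => exact ih.trans (VV_le _)

theorem X_mul_mem {n : ℕ} {w : XS} (hw : w ∈ VV n) (j : Fin 4) : X j * w ∈ VV (n + 1) := by
  rw [VV]
  refine Submodule.mem_sup_right (Submodule.mem_iSup_of_mem j ?_)
  exact ⟨w, hw, rfl⟩

theorem VV_ind {n : ℕ} (S : Submodule ℝ XS) (h1 : ∀ w ∈ VV n, w ∈ S)
    (h2 : ∀ j, ∀ w ∈ VV n, X j * w ∈ S) : ∀ w ∈ VV (n + 1), w ∈ S := by
  intro w hw
  have h : VV (n + 1) ≤ S := by
    rw [VV]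
    refine sup_le h1 (iSup_le fun j => ?_)
    rintro _ ⟨v, hv, rfl⟩
    exact h2 j v hv
  exact h hw

theorem Ed_V0 {v : XS} (hv : v ∈ VV 0) (i : Fin 3) : Ed i v = 0 := by
  rw [VV, Submodule.mem_span_singleton] at hv
  obtain ⟨c, rfl⟩ := hv
  rw [Derivation.map_smul, Derivation.map_one_eq_zero, smul_zero]

theorem Ed_X_mem {n : ℕ} {w : XS} (hw : w ∈ VV n) (i : Fin 3) (j : Fin 4) :
    w * Ed i (X j) ∈ VV (n + 1) := by
  have h := congrFun (Ed_X i) j
  rw [h]
  have h2 : ∀ k, w * X k ∈ VV (n + 1) := fun k => by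
    rw [mul_comm]
    exact X_mul_mem hw k
  have h3 : ∀ k, w * -X k ∈ VV (n + 1) := fun k => by
    have e : w * -X k = -(w * X k) := by ring
    rw [e]
    exact (VV (n + 1)).neg_mem (h2 k)
  fin_cases i <;> fin_cases j <;> first | exact h2 _ | exact h3 _

theorem Ed_mem (n : ℕ) (i : Fin 3) : ∀ v ∈ VV n, Ed i v ∈ VV n := by
  induction n with
  | zero =>
    intro v hv
    rw [Ed_V0 hv]
    exact Submodule.zero_mem _
  | succ n ih =>
    refine VV_ind ((VV (n + 1)).comap (Ed i).toLinearMap) (fun w hw => VV_le n (ih w hw)) ?_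
    intro j w hw
    show Ed i (X j * w) ∈ VV (n + 1)
    rw [Derivation.leibniz, smul_eq_mul, smul_eq_mul]
    exact Submodule.add_mem _ (X_mul_mem (ih w hw) j) (Ed_X_mem hw i j)

theorem Lp0_mem {n : ℕ} {v : XS} (hv : v ∈ VV n) : Lp0 v ∈ VV n :=
  Submodule.sum_mem _ fun i _ => Ed_mem n i _ (Ed_mem n i _ hv)

theorem Lp0_V0 {v : XS} (hv : v ∈ VV 0) : Lp0 v = 0 := by
  unfold Lp0
  exact Finset.sum_eq_zero fun i _ => by rw [Ed_V0 hv, map_zero]

theorem Lp0_X (j : Fin 4) : Lp0 (X j) = (-3 : ℝ) • X j := by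
  have h0 := fun j => congrFun (Ed_X 0) j
  have h1 := fun j => congrFun (Ed_X 1) j
  have h2 := fun j => congrFun (Ed_X 2) j
  unfold Lp0
  rw [Fin.sum_univ_three, Algebra.smul_def, h0, h1, h2]
  have h00 := h0 0
  have h01 := h0 1
  have h02 := h0 2
  have h03 := h0 3
  have h10 := h1 0
  have h11 := h1 1
  have h12 := h1 2
  have h13 := h1 3
  have h20 := h2 0
  have h21 := h2 1
  have h22 := h2 2
  have h23 := h2 3
  simp at h00 h01 h02 h03 h10 h11 h12 h13 h20 h21 h22 h23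
  fin_cases j <;> simp [h00, h01, h02, h03, h10, h11, h12, h13, h20, h21, h22, h23, map_ofNat] <;> ring

theorem Lp0_mul (u v : XS) :
    Lp0 (u * v) = u * Lp0 v + v * Lp0 u + (2 : ℝ) • ∑ i, Ed i u * Ed i v := by
  unfold Lp0
  simp only [Fin.sum_univ_three, Derivation.leibniz, smul_eq_mul, map_add, Algebra.smul_def]
  simp only [map_ofNat]
  ring

theorem sumX (x : HH) (hx : x ≠ 0) :
    (X 0).1 x ^ 2 + (X 1).1 x ^ 2 + (X 2).1 x ^ 2 + (X 3).1 x ^ 2 = 1 := by
  have h := sum_co x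
  have hx0 : ‖x‖ ≠ 0 := norm_ne_zero_iff.2 hx
  simp only [X_val, Fin.sum_univ_four] at h ⊢
  field_simp
  linarith

theorem grad (j k : Fin 4) :
    (∑ i, Ed i (X j) * Ed i (X k)) - (if j = k then 1 else 0) + X j * X k ∈ NN := by
  intro x hx
  have h := sumX x hx
  have h0 := fun j => congrFun (Ed_X 0) j
  have h1 := fun j => congrFun (Ed_X 1) j
  have h2 := fun j => congrFun (Ed_X 2) j
  have e1 : ((∑ i, Ed i (X j) * Ed i (X k)) - (if j = k then 1 else 0) + X j * X k).1 x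
      = (Ed 0 (X j)).1 x * (Ed 0 (X k)).1 x + (Ed 1 (X j)).1 x * (Ed 1 (X k)).1 x
        + (Ed 2 (X j)).1 x * (Ed 2 (X k)).1 x - (if j = k then 1 else 0)
        + (X j).1 x * (X k).1 x := by
    rw [Fin.sum_univ_three]
    split_ifs <;> rfl
  rw [e1, h0, h0, h1, h1, h2, h2]
  have hneg : ∀ k : Fin 4, (-X k : XS).1 x = - (X k).1 x := fun _ => rfl
  fin_cases j <;> fin_cases k <;> simp [hneg] <;> linarith

theorem mul_mem_sup {n : ℕ} {u : XS} (hu : u ∈ VV n ⊔ NN) (j : Fin 4) :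
    X j * u ∈ VV (n + 1) ⊔ NN := by
  obtain ⟨a, ha, b, hb, rfl⟩ := Submodule.mem_sup.1 hu
  rw [mul_add]
  exact Submodule.add_mem_sup (X_mul_mem ha j) (mul_NN hb)

theorem partA (n : ℕ) (j : Fin 4) : ∀ w ∈ VV n,
    (∑ i, Ed i (X j) * Ed i w) + (n : ℝ) • (X j * w) ∈ VV n ⊔ NN := by
  induction n with
  | zero =>
    intro w hw
    simp [Ed_V0 hw]
  | succ n ih =>
    let D : XS →ₗ[ℝ] XS := (∑ i, (LinearMap.mulLeft ℝ (Ed i (X j))) ∘ₗ (Ed i).toLinearMap)
      + ((n + 1 : ℕ) : ℝ) • LinearMap.mulLeft ℝ (X j)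
    have hD : ∀ w, D w = (∑ i, Ed i (X j) * Ed i w) + ((n + 1 : ℕ) : ℝ) • (X j * w) := by
      intro w
      simp only [D, LinearMap.add_apply, LinearMap.sum_apply]
      rfl
    have key := VV_ind (n := n) ((VV (n + 1) ⊔ NN).comap D) ?_ ?_
    · intro w hw
      have := key w hw
      rw [Submodule.mem_comap, hD] at this
      exact this
    · intro w hw
      rw [Submodule.mem_comap, hD]
      have h1 := ih w hw
      have h2 : (∑ i, Ed i (X j) * Ed i w) + ((n + 1 : ℕ) : ℝ) • (X j * w)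
          = ((∑ i, Ed i (X j) * Ed i w) + (n : ℝ) • (X j * w)) + X j * w := by
        push_cast
        module
      rw [h2]
      exact Submodule.add_mem _ (sup_le_sup_right (VV_le n) _ h1)
        (Submodule.mem_sup_left (X_mul_mem hw j))
    · intro k w hw
      rw [Submodule.mem_comap, hD]
      have h1 := ih w hw
      have h2 : (∑ i, Ed i (X j) * Ed i (X k * w)) + ((n + 1 : ℕ) : ℝ) • (X j * (X k * w))
          = X k * ((∑ i, Ed i (X j) * Ed i w) + (n : ℝ) • (X j * w))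
            + (if j = k then 1 else 0) * w
            + w * ((∑ i, Ed i (X j) * Ed i (X k)) - (if j = k then 1 else 0) + X j * X k) := by
        simp only [Fin.sum_univ_three, Derivation.leibniz, smul_eq_mul, Algebra.smul_def]
        push_cast
        ring
      rw [h2]
      refine Submodule.add_mem _ (Submodule.add_mem _ (mul_mem_sup h1 k) ?_)
        (Submodule.mem_sup_right (mul_NN (grad j k)))
      refine Submodule.mem_sup_left (VV_le n ?_)
      split_ifs
      · rw [one_mul]; exact hw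
      · rw [zero_mul]; exact Submodule.zero_mem _

theorem partB (n : ℕ) : ∀ w ∈ VV (n + 1),
    Lp0 w + (((n : ℝ) + 1) * ((n : ℝ) + 3)) • w ∈ VV n ⊔ NN := by
  -- `P n`
  have step : ∀ n : ℕ, (∀ w ∈ VV n, ∀ j, X j * (Lp0 w + ((n : ℝ) * ((n : ℝ) + 2)) • w) ∈ VV n ⊔ NN) →
      ∀ w ∈ VV (n + 1), Lp0 w + (((n : ℝ) + 1) * ((n : ℝ) + 3)) • w ∈ VV n ⊔ NN := by
    intro n hP
    let D : XS →ₗ[ℝ] XS := (∑ i, (Ed i).toLinearMap ∘ₗ (Ed i).toLinearMap)
      + (((n : ℝ) + 1) * ((n : ℝ) + 3)) • LinearMap.id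
    have hD : ∀ w, D w = Lp0 w + (((n : ℝ) + 1) * ((n : ℝ) + 3)) • w := by
      intro w
      simp only [D, LinearMap.add_apply, LinearMap.sum_apply]
      rfl
    have key := VV_ind (n := n) ((VV n ⊔ NN).comap D) ?_ ?_
    · intro w hw
      have := key w hw
      rw [Submodule.mem_comap, hD] at this
      exact this
    · intro w hw
      rw [Submodule.mem_comap, hD]
      exact Submodule.mem_sup_left (Submodule.add_mem _ (Lp0_mem hw) (Submodule.smul_mem _ _ hw))
    · intro j w hw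
      rw [Submodule.mem_comap, hD]
      have h1 := partA n j w hw
      have h2 := hP w hw j
      have h3 : Lp0 (X j * w) + (((n : ℝ) + 1) * ((n : ℝ) + 3)) • (X j * w)
          = X j * (Lp0 w + ((n : ℝ) * ((n : ℝ) + 2)) • w)
            + (2 : ℝ) • ((∑ i, Ed i (X j) * Ed i w) + (n : ℝ) • (X j * w)) := by
        rw [Lp0_mul, Lp0_X]
        simp only [Algebra.smul_def, map_add, map_mul, map_neg, map_one, map_ofNat, map_natCast]
        ring
      rw [h3]
      exact Submodule.add_mem _ h2 (Submodule.smul_mem _ _ h1)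
  have hP : ∀ n : ℕ, ∀ w ∈ VV n, ∀ j,
      X j * (Lp0 w + ((n : ℝ) * ((n : ℝ) + 2)) • w) ∈ VV n ⊔ NN := by
    intro n
    induction n with
    | zero =>
      intro w hw j
      simp [Lp0_V0 hw]
    | succ n ih =>
      intro w hw j
      have h := mul_mem_sup (step n ih w hw) j
      have e : (((n + 1 : ℕ) : ℝ) * (((n + 1 : ℕ) : ℝ) + 2)) = ((n : ℝ) + 1) * ((n : ℝ) + 3) := by
        push_cast
        ring
      rw [e]
      exact h
  exact step n (hP n)

theorem mul_mem {n m : ℕ} {v w : XS} (hv : v ∈ VV n) (hw : w ∈ VV m) : v * w ∈ VV (n + m) := by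
  induction m generalizing w with
  | zero =>
    rw [VV, Submodule.mem_span_singleton] at hw
    obtain ⟨c, rfl⟩ := hw
    rw [mul_smul_comm, mul_one]
    exact Submodule.smul_mem _ _ hv
  | succ m ih =>
    refine VV_ind ((VV (n + (m + 1))).comap (LinearMap.mulLeft ℝ v)) ?_ ?_ w hw
    · intro w hw
      exact VV_mono (show n + m ≤ n + (m + 1) by omega) (ih hw)
    · intro j w hw
      show v * (X j * w) ∈ VV (n + (m + 1))
      have h : v * (X j * w) = X j * (v * w) := by ring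
      rw [h]
      exact X_mul_mem (ih hw) j

theorem one_mem_VV : (1 : XS) ∈ VV 0 := by
  rw [VV]
  exact Submodule.mem_span_singleton_self 1

/-- polynomials on the unit sphere -/
noncomputable def SA : Subalgebra ℝ C(Metric.sphere (0 : HH) 1, ℝ) where
  carrier := {g | ∃ n, ∃ v ∈ VV n, ∀ x : Metric.sphere (0 : HH) 1, g x = v.1 x}
  mul_mem' := by
    rintro g h ⟨n, v, hv, hg⟩ ⟨m, w, hw, hh⟩
    refine ⟨n + m, v * w, mul_mem hv hw, fun x => ?_⟩
    show g x * h x = v.1 x * w.1 x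
    rw [hg, hh]
  add_mem' := by
    rintro g h ⟨n, v, hv, hg⟩ ⟨m, w, hw, hh⟩
    refine ⟨n + m, v + w, Submodule.add_mem _ (VV_mono (by omega) hv) (VV_mono (by omega) hw),
      fun x => ?_⟩
    show g x + h x = v.1 x + w.1 x
    rw [hg, hh]
  algebraMap_mem' := by
    intro c
    refine ⟨0, c • (1 : XS), Submodule.smul_mem _ _ one_mem_VV, fun x => ?_⟩
    show c = c * 1
    rw [mul_one]

/-- restriction to the unit sphere -/
noncomputable def rs (u : XS) : C(Metric.sphere (0 : HH) 1, ℝ) where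
  toFun x := u.1 x
  continuous_toFun := by
    have h : ContinuousOn u.1 {0}ᶜ := u.2.cd.continuousOn
    refine h.comp_continuous continuous_subtype_val fun x => ?_
    intro h0
    have h1 : ‖(x : HH)‖ = 1 := by
      have := x.2
      rwa [mem_sphere_zero_iff_norm] at this
    rw [mem_singleton_iff] at h0
    rw [h0, norm_zero] at h1
    exact zero_ne_one h1

theorem sep : SA.SeparatesPoints := by
  intro x y hxy
  have hx : ‖(x : HH)‖ = 1 := by
    have := x.2
    rwa [mem_sphere_zero_iff_norm] at this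
  have hy : ‖(y : HH)‖ = 1 := by
    have := y.2
    rwa [mem_sphere_zero_iff_norm] at this
  by_contra hcon
  apply hxy
  apply Subtype.ext
  apply co_ext
  intro j
  by_contra hj
  apply hcon
  refine ⟨fun z => rs (X j) z, ⟨rs (X j), ?_, rfl⟩, ?_⟩
  · refine ⟨1, X j, ?_, fun x => rfl⟩
    have := X_mul_mem one_mem_VV j
    rwa [mul_one] at this
  · show (X j).1 x ≠ (X j).1 y
    rw [X_val, X_val, hx, hy]
    simpa using hj

theorem dens (u : XS) (δ : ℝ) (hδ : 0 < δ) :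
    ∃ n, ∃ v ∈ VV n, ∀ x ≠ 0, |u.1 x - v.1 x| ≤ δ := by
  obtain ⟨⟨g, n, v, hv, hg⟩, hgu⟩ :=
    ContinuousMap.exists_mem_subalgebra_near_continuous_of_separatesPoints SA sep
      (rs u) (rs u).continuous δ hδ
  refine ⟨n, v, hv, fun x hx => ?_⟩
  have hx0 : 0 < ‖x‖ := norm_pos_iff.2 hx
  have hy : (‖x‖⁻¹ • x) ∈ Metric.sphere (0 : HH) 1 := by
    rw [mem_sphere_zero_iff_norm, norm_smul, norm_inv, norm_norm, inv_mul_cancel₀ hx0.ne']
  have h := hgu ⟨_, hy⟩
  have h1 : u.1 (‖x‖⁻¹ • x) = u.1 x := u.2.hom _ x (inv_pos.2 hx0)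
  have h2 : v.1 (‖x‖⁻¹ • x) = v.1 x := v.2.hom _ x (inv_pos.2 hx0)
  have h3 : g ⟨_, hy⟩ = v.1 x := by rw [hg, ← h2]
  have h4 : rs u ⟨_, hy⟩ = u.1 x := h1
  rw [Real.norm_eq_abs] at h
  have h5 : |v.1 x - u.1 x| < δ := by
    rw [← h3, ← h4]
    exact h
  rw [abs_sub_comm]
  exact h5.le

theorem pol : Pool.Agent.Helper36.RS.G_POL := by
  refine ⟨VV, VV_fin, VV_le, fun v hv => Lp0_V0 hv, Ed_mem, ?_, dens⟩
  intro n v hv
  obtain ⟨v', hv', z, hz, he⟩ := Submodule.mem_sup.1 (partB n v hv)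
  refine ⟨v', hv', fun x hx => ?_⟩
  have h1 : (v' + z).1 x = v'.1 x + z.1 x := rfl
  have h2 : (Lp0 v + (((n : ℝ) + 1) * ((n : ℝ) + 3)) • v).1 x
      = (Lp0 v).1 x + (((n : ℝ) + 1) * ((n : ℝ) + 3)) * v.1 x := rfl
  rw [← h2, ← he, h1, hz x hx, add_zero]

end Pool.Agent.Helper67.RS
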